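import Mathlib

namespace Pool.Agent.Results.MP_0a3b9a_nt.Counter

open Finset

/-- The generalized binomial coefficient `a (a-1) ... (a-k+1) / k!`. -/
def binom (a : ℚ) (k : ℕ) : ℚ := (∏ i ∈ range k, (a - (i : ℚ))) / (k.factorial : ℚ)

/-- The sum `S_1(p)`. -/
def S1 (p : ℕ) : ℚ := ∑ k ∈ range p, binom (-1 / 3) k * binom (-1 / 6) k * (27 / 2) ^ k

/-- `u ≡ v (mod p^m)`: the rational `(u - v) / p^m` has denominator prime to `p`. -/
def Cong (p m : ℕ) (u v : ℚ) : Prop := Nat.Coprime ((u - v) / (p : ℚ) ^ m).den p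

instance (p m : ℕ) (u v : ℚ) : Decidable (Cong p m u v) := by unfold Cong; infer_instance

theorem result : ∃ (p : ℕ) (_ : Fact p.Prime), p % 24 = 11 ∧
    (∃ c d : ℤ, (p : ℤ) = c ^ 2 + 2 * d ^ 2 ∧ c % 4 = 1) ∧
    ∀ c d : ℤ, (p : ℤ) = c ^ 2 + 2 * d ^ 2 → c % 4 = 1 →
      ∀ t : ℤ, Cong p 1 (t : ℚ) (2 + (c : ℚ) / (d : ℚ)) →
        ¬ Cong p 2 (S1 p) ((-1 : ℚ) ^ (p / 8) * (legendreSym p t : ℚ) *
          (10 * (d : ℚ) - 5 * (p : ℚ) / (4 * (d : ℚ)))) := by
  haveI : Fact (Nat.Prime 11) := ⟨by norm_num⟩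
  refine ⟨11, inferInstance, by norm_num, ⟨-3, 1, by norm_num, by norm_num⟩,
    fun c d h hc t ht => ?_⟩
  push_cast at h
  have hx : c = -3 ∧ (d = 1 ∨ d = -1) := by
    have h1 : c ≤ 3 := by nlinarith [sq_nonneg d, sq_nonneg (c - 4)]
    have h2 : -3 ≤ c := by nlinarith [sq_nonneg d, sq_nonneg (c + 4)]
    have h3 : d ≤ 2 := by nlinarith [sq_nonneg c, sq_nonneg (d - 3)]
    have h4 : -2 ≤ d := by nlinarith [sq_nonneg c, sq_nonneg (d + 3)]
    interval_cases c <;> interval_cases d <;> simp_all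
  have key : ∀ s : ℤ, Nat.Coprime (((s : ℚ)) / ((11 : ℕ) : ℚ) ^ 1).den 11 → (11 : ℤ) ∣ s := by
    intro s hs
    by_contra hn
    have e : ((s : ℚ)) / ((11 : ℕ) : ℚ) ^ 1 = ((s : ℚ)) / ((11 : ℤ) : ℚ) := by norm_num
    rw [e] at hs
    have hco : Nat.Coprime s.natAbs (11 : ℤ).natAbs := by
      have : Nat.Coprime 11 s.natAbs := (Nat.Prime.coprime_iff_not_dvd (by norm_num)).2
        (fun h' => hn (Int.natCast_dvd.2 h'))
      exact this.symm
    have := Rat.den_div_eq_of_coprime (a := s) (b := 11) (by norm_num) hco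
    have h11 : ((s : ℚ) / ((11 : ℤ) : ℚ)).den = 11 := by exact_mod_cast this
    rw [h11] at hs
    norm_num at hs
  obtain ⟨rfl, rfl | rfl⟩ := hx
  · have h1 : (11 : ℤ) ∣ t + 1 := key (t + 1) (by
      unfold Cong at ht
      convert ht using 3
      push_cast
      ring)
    have h2 : legendreSym 11 t = legendreSym 11 10 := by
      rw [legendreSym.mod 11 t, legendreSym.mod 11 10]
      congr 1
      push_cast
      omega
    have h3 : legendreSym 11 10 = -1 := by norm_num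
    rw [h2, h3]
    decide +kernel
  · have h1 : (11 : ℤ) ∣ t - 5 := key (t - 5) (by
      unfold Cong at ht
      convert ht using 3
      push_cast
      ring)
    have h2 : legendreSym 11 t = legendreSym 11 5 := by
      rw [legendreSym.mod 11 t, legendreSym.mod 11 5]
      congr 1
      push_cast
      omega
    have h3 : legendreSym 11 5 = 1 := by norm_num
    rw [h2, h3]
    decide +kernel

end Pool.Agent.Results.MP_0a3b9a_nt.Counter
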